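import Pool.Agent.Lib.MP_99fcc5_gt.Gen.G4
import Pool.Agent.Shared.Sing.Bridge

namespace Pool.Agent.Results.MP_99fcc5_gt.TwoDegrees

open Pool.Agent.Lib.MP_c77dc5_gt Pool.Agent.Sing

/-- `H_n(M; ℚ) ≠ 0`: some rational `n`-cycle is not a boundary. -/
def HomNe (M : Type) [TopologicalSpace M] (n : ℕ) : Prop := ∃ μ ∈ cyc ℚ M n, μ ∉ bdry ℚ M n

/-- `c_* : H_k(M; ℚ) → H_k(B; ℚ)` is nonzero: the image of some `k`-cycle is not a boundary. -/
def MapNe {M B : Type} [TopologicalSpace M] [TopologicalSpace B] (c : C(M, B)) (k : ℕ) : Prop :=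
  ∃ z ∈ cyc ℚ M k, push ℚ c k z ∉ bdry ℚ B k

theorem result (n k l : ℕ) (hk : 2 ≤ k) (hkn : k < n) (hl : 2 ≤ l) (hln : l < n)
    (M : Type) [TopologicalSpace M] [T2Space M] [CompactSpace M] [ConnectedSpace M]
    [ChartedSpace (EuclideanSpace ℝ (Fin n)) M] (hM : HomNe M n)
    (N : Type) [TopologicalSpace N] [T2Space N] [CompactSpace N] [ConnectedSpace N]
    [ChartedSpace (EuclideanSpace ℝ (Fin n)) N] (hN : HomNe N n)
    (A : Type) [TopologicalSpace A] [LocallyPathConnectedSpace A] (hA : Aspherical A)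
    (B : Type) [TopologicalSpace B] [LocallyPathConnectedSpace B] (hB : Aspherical B)
    (a : C(M, A)) (ha : MapNe a k) (b : C(N, B)) (hb : MapNe b l)
    (e₁ : EuclideanSpace ℝ (Fin n) → M) (he₁ : Topology.IsOpenEmbedding e₁)
    (e₂ : EuclideanSpace ℝ (Fin n) → N) (he₂ : Topology.IsOpenEmbedding e₂) :
    (k : ℕ∞) + l + 3 ≤ TC (ConnSum e₁ e₂) := by
  refine le_sInf ?_
  rintro _ ⟨m, ⟨U, u1, u2, u3⟩, rfl⟩
  obtain ⟨E, _, p, _, q, s⟩ := hA
  obtain ⟨E', _, p', _, q', s'⟩ := hB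
  obtain ⟨μ, m1, m2⟩ := hM
  obtain ⟨ν, n1, n2⟩ := hN
  obtain ⟨z, z1, z2⟩ := ha
  obtain ⟨w, w1, w2⟩ := hb
  have : Nonempty A := ⟨a (e₁ 0)⟩
  have : Nonempty B := ⟨b (e₂ 0)⟩
  have : NeZero n := ⟨by omega⟩
  have : Infinite (EuclideanSpace ℝ (Fin n)) := Module.Free.infinite ℝ _
  have := Infinite.of_injective e₁ he₁.injective
  have : Nonempty (ConnSum e₁ e₂) := ⟨Quot.mk _ (.inl ⟨_, (exists_ne (e₁ 0)).choose_spec⟩)⟩
  obtain ⟨f₁, f₂, H, H'⟩ := connSum_half he₁ he₂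
  exact_mod_cast Lib.MP_99fcc5_gt.Gen.add_three_le hk hl hkn hln q s q' s' a.continuous
    b.continuous (Shared.Sing.br_mem_Z.2 m1) (mt Shared.Sing.br_mem_B.1 m2)
    (Shared.Sing.br_mem_Z.2 n1) (mt Shared.Sing.br_mem_B.1 n2) (Shared.Sing.br_mem_Z.2 z1)
    (Shared.Sing.br_push a z ▸ mt Shared.Sing.br_mem_B.1 z2) (Shared.Sing.br_mem_Z.2 w1)
    (Shared.Sing.br_push b w ▸ mt Shared.Sing.br_mem_B.1 w2) H H' u1 u2 u3

/-- The posed question, with the bound seven in both parities. -/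
theorem posed_question (n : ℕ) (hn : 3 ≤ n) (M : Type) [TopologicalSpace M] [T2Space M]
    [CompactSpace M] [ConnectedSpace M] [ChartedSpace (EuclideanSpace ℝ (Fin n)) M]
    (hM : HomNe M n) (B : Type) [TopologicalSpace B] [LocallyPathConnectedSpace B]
    (hB : Aspherical B) (c : C(M, B)) (hc : MapNe c 2) (e₁ e₂ : EuclideanSpace ℝ (Fin n) → M)
    (he₁ : Topology.IsOpenEmbedding e₁) (he₂ : Topology.IsOpenEmbedding e₂) :
    7 ≤ TC (ConnSum e₁ e₂) := by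
  have := result n 2 2 le_rfl hn le_rfl hn M hM M hM B hB B hB c hc c hc e₁ he₁ e₂ he₂
  exact le_trans (by norm_num) this

end Pool.Agent.Results.MP_99fcc5_gt.TwoDegrees
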